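import Pool.Agent.K7.H24.FA.Main

/-!
# Linear covering codes: `f_all(r) ≥ 2 f(r) ≥ 2` for every `r ≥ 1`

`m n r` is the infimum of `|V| |B(n, r)| / 2^n` over the covering subspaces `V` of `F_2^n` of radius `r`,
`fAll r` and `fInf r` are its upper and lower limits as `n → ∞` (in `[0, ∞]`).

Proof: the least size of a covering subspace is a power of 2 and at most doubles from `n` to `n + 1`;
it cannot double for all large `n`, as `m` would grow like `|B(n, r)|`; and if it does not double, then
`m(n, r) ≥ 2 m(n + 1, r) (1 - r / (n + 1))`.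
-/

set_option autoImplicit false

namespace Pool.Agent.Results.MP_e73f90_co.LimsupTwiceLiminf

open Pool.Agent.K7.H24.FA

theorem result : ∀ r : ℕ, 1 ≤ r → 2 * fInf r ≤ fAll r ∧ 2 ≤ fAll r :=
  fun _ hr => ⟨two_mul_le hr, two_le hr⟩

end Pool.Agent.Results.MP_e73f90_co.LimsupTwiceLiminf
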